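import Pool.Agent.H916.Cst

/-!
# The geometric Bombieri-Lang conjecture for iterated fibrations by curves: constant parametrizations

Let `k` be an algebraically closed field of characteristic zero, `F` the function field of a curve
over `k` (the field `K` of the problem), and `X` a projective variety over `F`, of arbitrary
singularities, with the function field `K` and the generic point `x` (homogeneous coordinates in
`K`; `coords F x = ⊤` says that their ratios generate `K` over `F`).

The conjecture says that the `F`-points of `X` outside of the algebraic special set are `k`-points of
finitely many constant varieties `T i` which are birational to subvarieties of `X`. We prove the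
following weak form, for iterated fibrations by curves (`Parametrized`): there is a proper closed
subset `G = 0` of `X` such that for every finite extension `L` of `F` there are finitely many
projective varieties `T i` over `k`, all in one projective space, and elements `u i` of `L`, linearly
independent over `k`, such that the linear map `t ↦ ∑ i, t (j, i) u i` maps `T i (k)` to `X(L)`, and
all `L`-points of `X` outside of `G = 0` are images of points of the `T i (k)`. In the conjecture the
special set takes the place of `G = 0`, and `T i` is birational to the closure of its image.

**Theorem.** (1) The weak form holds for `X` if and only if the heights of the `L`-points of `X` outside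
of some proper closed subset are bounded, for each finite extension `L` of `F`.

(2) It ascends along fibrations by curves: let finitely many dominant rational maps `X ⇢ Y l` be
given (by the points `y l` with coordinates in `K`), and let `Z` be the image of `X` in the product of
the `Y l`; its function field is the compositum of the fields `coords F (y l)`. Suppose that `X` is of
general type and `dim X ≤ dim Z + 1`, or that `dim X = dim Z`, or that the geometric generic fibre of
`X ⇢ Z` is a curve of genus at least two (`HypFibres`). If the weak form holds for all `Y l` then it
holds for `X`.

(3) Hence it holds for all iterated fibrations by curves of genus at least two (`Iterated`),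
isotrivial or not, and so for all `X` of general type with dominant rational maps to such varieties
of total relative dimension at most one.

(4) If the weak form holds for `X` and the `L`-points are Zariski dense in `X` then `X` is dominated
by a constant variety, more exactly one of the `T i (k)` has a Zariski dense image.

Proof. (1) By Riemann's theorem the points of bounded height have homogeneous coordinates in one
finite-dimensional vector space over `k`; the points with coordinates in this space are the points
over `k` of a closed cone, and its irreducible components are the `T i`. (2) The relative height
inequality for families of curves over arbitrary bases (`rel_log_rat` in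
`Pool/Agent/H916/LRat.lean`): `h(v) ≤ A (max (2 g (L) - 2, 0) + ∑ h(y l (v)) + C)` outside of a proper
closed subset. (4) `X` is irreducible.

`IsFF k F` : `F` is a function field of one variable over `k`; `OnVar F x v` : the vector `v` is the
vector of the homogeneous coordinates of a point of `X`; `pht k v` : its height, that is, the degree of
the corresponding map from the curve; `GeneralType F K w` : the variety has dimension `w` and there are
`w + 1` pluricanonical forms, regular at all prime divisors of `K`, with algebraically independent
ratios (`Pool/Graph/R_seed8/W602/GT/Defs.lean`); `HypFibres` : `Pool/Agent/H916/RatRel.lean`;
`Iterated` : `Pool/Agent/H916/Tow.lean`; the other definitions: `Pool/Agent/H916/Cst.lean`.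
-/

set_option autoImplicit false
set_option linter.overlappingInstances false

open FF Pool.Agent.H916
open Pool.Agent.W602.GT (coords GeneralType)

namespace Pool.Agent.Results.MP_46885d_ag.TowersOfCurves

/-- **The weak form of the geometric Bombieri-Lang conjecture ascends along fibrations by curves.**
See the explanation at the beginning of the file. -/
theorem result {k F K : Type} [Field k] [IsAlgClosed k] [CharZero k] [Field F] [Algebra k F]
    [IsFF k F] [Field K] [Algebra F K] {M : ℕ} {x : Fin (M + 1) → K} (hx : x ≠ 0)
    (hgen : coords F x = ⊤) :
    (Parametrized k F x ↔ BoundedHeights k F x) ∧
    (∀ (r : ℕ) (N : Fin r → ℕ) (y : ∀ l : Fin r, Fin (N l + 1) → K), (∀ l, y l ≠ 0) →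
      ((∃ w, GeneralType F K w) ∧
          Algebra.trdeg F K ≤ Algebra.trdeg F ↥(⨆ l, coords F (y l)) + 1) ∨
        HypFibres (⨆ l, coords F (y l)) →
      (∀ l, Parametrized k F (y l)) → Parametrized k F x) ∧
    (Iterated F K → Parametrized k F x) ∧
    (Parametrized k F x → ∀ (L : Type) [Field L] [Algebra k L] [Algebra F L] [IsScalarTower k F L]
      [FiniteDimensional F L], DensePoints F x L → DominatedByConstant k F x L) := by
  have hF0 : CharZero F := charZero_of_injective_algebraMap (algebraMap k F).injective
  refine ⟨parametrized_iff, fun r N y hy h hY => ?_, fun h => ?_, fun h L _ _ _ _ _ hd =>
    h.dominated L hd⟩
  · have hf : HypFibres (⨆ l, coords F (y l)) := by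
      rcases h with ⟨⟨w, hw⟩, htr⟩ | h
      · exact hypFibres_of_gt (ess_coords hgen) hw htr
      · exact h
    exact parametrized_iff.2 (bounded_multiC hx hgen hy hf fun l => parametrized_iff.1 (hY l))
  · exact parametrized_iff.2 (h.boundedHeights M x hx hgen)

end Pool.Agent.Results.MP_46885d_ag.TowersOfCurves
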